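import Pool.Agent.H14.L2.Fm
import Pool.Agent.H95.UL.Nrm
import Pool.Agent.H95.UL.Pw

/-!
[H72 NL FM]  MP_8923e7_nt, THEOREM G (uniform laws): the family of residue classes for a general modulus `W`.
Edited copy of `H14/L2/Fm.lean`.
-/

namespace Pool.Agent.H72.NL

open Finset Filter Pool.Agent.H95.FL Pool.Agent.H95.L1 Pool.Agent.H92.MM Pool.Agent.H21.MT Pool.Agent.H14.L2
  Pool.Agent.H95.UL

variable {ι : Type} [Fintype ι] [DecidableEq ι] {L : ℕ}

/-- facts on the family for given `x` -/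
structure OkG (x a : ℝ) (L : ℕ) (h : ι → ℕ) (w W b : ℕ) : Prop where
  x1 : 1 < x
  a0 : 0 < a
  W0 : 0 < W
  Wlt : (W : ℝ) < x ^ a
  ale : a ≤ 1 / 4
  wW : primorial w ∣ W
  hW : ∀ j, Nat.Coprime (b + h j) W
  hd : ∀ p : ℕ, p.Prime → ¬ p ∣ W → ∀ i j, i ≠ j → ¬ (p : ℤ) ∣ (h i : ℤ) - h j

theorem OkG.mem_T {x a : ℝ} {h : ι → ℕ} {w W b : ℕ} (hok : OkG x a L h w W b) {i : Fin L} {p : ℕ}
    (hp : p ∈ TI x a L i) : p.Prime ∧ x ^ a ≤ (p : ℝ) ∧ ¬ p ∣ W := by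
  have h1 := TI_ge hok.x1.le hok.a0 hp
  refine ⟨(mem_TI.1 hp).1, h1, ?_⟩
  intro hd
  have h2 := hok.Wlt
  have h3 : (p : ℝ) ≤ W := by exact_mod_cast Nat.le_of_dvd hok.W0 hd
  linarith

theorem OkG.mem_P {x a : ℝ} {h : ι → ℕ} {w W b : ℕ} (hok : OkG x a L h w W b) {p : ℕ}
    (hp : p ∈ PP x a (W)) : p.Prime ∧ (p : ℝ) < x ^ a ∧ w < p ∧ ¬ p ∣ W := by
  have h1 := mem_PP.1 hp
  refine ⟨h1.1, h1.2.2, ?_, h1.2.1⟩
  by_contra h2
  exact h1.2.1 ((h1.1.dvd_primorial_iff.2 (by omega)).trans hok.wW)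

/-- the primes of a member of the family -/
theorem OkG.fam_prime {x a : ℝ} {h : ι → ℕ} {w W b : ℕ} (hok : OkG x a L h w W b) {A : ι → Fin L → ℕ}
    {k : ι → Fin L → Finset ℕ} (hk : k ∈ Fam (TI x a L) A) {p : ℕ} (hp : p.Prime) (hd : p ∣ qk k) :
    x ^ a ≤ (p : ℝ) ∧ ¬ p ∣ W ∧ ∃ j i, p ∈ k j i := by
  have hA := (mem_Fam.1 hk).1
  obtain ⟨j, i, hji⟩ := prime_dvd_qk (fun i p hp => (hok.mem_T hp).1) hA hp hd
  have h2 := hok.mem_T ((mem_All.1 hA j i).1 hji)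
  exact ⟨h2.2.1, h2.2.2, j, i, hji⟩

theorem OkG.q_le {x a : ℝ} {h : ι → ℕ} {w W b : ℕ} (hok : OkG x a L h w W b) {A : ι → Fin L → ℕ}
    {k : ι → Fin L → Finset ℕ} (hk : k ∈ Fam (TI x a L) A) : (qk k : ℝ) ≤ x ^ sl a L A := by
  have hx0 : 0 < x := by linarith [hok.x1]
  rw [← prod_level hx0]
  exact qk_le (fun i => x ^ (a * 2 ^ ((i : ℕ) + 1))) (fun i p hp => ((mem_TI.1 hp).2.2).le)
    (fun i => (Real.rpow_pos_of_pos hx0 _).le) (mem_Fam.1 hk).1

theorem OkG.card_le {x a : ℝ} {h : ι → ℕ} {w W b : ℕ} (hok : OkG x a L h w W b) (A : ι → Fin L → ℕ) :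
    ((Fam (TI x a L) A).card : ℝ) ≤ x ^ sl a L A := by
  classical
  have hx0 : 0 < x := by linarith [hok.x1]
  rw [← prod_level hx0]
  refine le_trans ?_ (card_All_le (TI x a L) A (fun i => x ^ (a * 2 ^ ((i : ℕ) + 1)))
    fun i => TI_card hok.x1.le i)
  have : (Fam (TI x a L) A).card ≤ (All (TI x a L) A).card := by
    unfold Fam
    exact Finset.card_filter_le _ _
  exact_mod_cast this

open Classical in
/-- the small monomial as a sum of indicators of residue classes -/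
theorem OkG.sm_fam {x a : ℝ} {h : ι → ℕ} {w W b : ℕ} (hok : OkG x a L h w W b) (A : ι → Fin L → ℕ) :
    ∃ r : (ι → Fin L → Finset ℕ) → ℕ, (∀ N, sm x a L h A N =
      ∑ k ∈ Fam (TI x a L) A, if N % qk k = r k % qk k then (1 : ℝ) else 0) ∧
      ∀ k ∈ Fam (TI x a L) A, ∀ N, Dv h k N ↔ N % qk k = r k % qk k := by
  have hT : ∀ i : Fin L, ∀ p ∈ TI x a L i, p.Prime := fun i p hp => (hok.mem_T hp).1
  have h1 : ∀ k : ι → Fin L → Finset ℕ, ∃ r : ℕ, k ∈ Fam (TI x a L) A →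
      ∀ N, Dv h k N ↔ N % qk k = r % qk k := by
    intro k
    by_cases hk : k ∈ Fam (TI x a L) A
    · obtain ⟨r, hr⟩ := crt (TI x a L) A h hT k hk
      exact ⟨r, fun _ => hr⟩
    · exact ⟨0, fun h2 => absurd h2 hk⟩
  choose r hr using h1
  refine ⟨r, fun N => ?_, fun k hk => hr k hk⟩
  rw [sm_eq, cho_fam (TI x a L) A h (fun i i' => TI_disj hok.x1.le hok.a0 L i i')
    (fun i p hp => hok.hd p (hok.mem_T hp).1 (hok.mem_T hp).2.2) N]
  refine Finset.sum_congr rfl fun k hk => ?_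
  simp only [hr k hk N]

/-- the presieve at the primes `N + h j0` -/
theorem OkG.adm_prime {x a : ℝ} {h : ι → ℕ} {w W b : ℕ} (hok : OkG x a L h w W b) (j0 : ι) {N : ℕ}
    (hN : N ∈ Tp x (h j0)) : Adm x a h (W) b N ↔ N % W = b % W ∧
      DP (fun j : {j // j ≠ j0} => h j.1) (PP x a (W)) N = ∅ := by
  classical
  rw [adm_iffU x a h W b hok.hW N]
  have hx0 : 0 < x := by linarith [hok.x1]
  have h1 : DP h (PP x a (W)) N =
      DP (fun j : {j // j ≠ j0} => h j.1) (PP x a (W)) N := by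
    ext p
    rw [Pool.Agent.H14.L2.mem_DP, Pool.Agent.H14.L2.mem_DP]
    constructor
    · rintro ⟨hp, j, hj⟩
      refine ⟨hp, ?_⟩
      by_cases hjj : j = j0
      · exfalso
        rw [hjj] at hj
        unfold Tp Win at hN
        rw [Finset.mem_filter, Finset.mem_Ioc] at hN
        have h2 := (Nat.prime_dvd_prime_iff_eq (hok.mem_P hp).1 hN.2).1 hj
        have h3 := (hok.mem_P hp).2.1
        have h4 : Real.sqrt x < N := (Nat.floor_lt (Real.sqrt_nonneg _)).1 hN.1.1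
        have h5 : x ^ a ≤ Real.sqrt x := by
          rw [Real.sqrt_eq_rpow]
          exact Real.rpow_le_rpow_of_exponent_le hok.x1.le (by linarith [hok.ale])
        have h6 : (N : ℝ) ≤ p := by
          rw [h2]
          push_cast
          have : (0 : ℝ) ≤ h j0 := Nat.cast_nonneg _
          linarith
        linarith
      · exact ⟨⟨j, hjj⟩, hj⟩
    · rintro ⟨hp, j, hj⟩
      exact ⟨hp, j.1, hj⟩
  rw [h1]

end Pool.Agent.H72.NL
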