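import Pool.Agent.H14.L2.Sv
import Pool.Agent.H72.NL.Fm

/-!
[H72 NL SV]  MP_8923e7_nt, THEOREM G (uniform laws): the sum over the primes with the weight `vp`, and the crude bounds, general `W`.
Edited copy of `H14/L2/Sv.lean`.
-/

namespace Pool.Agent.H72.NL

open Finset Filter Pool.Agent.H95.FL Pool.Agent.H95.L1 Pool.Agent.H92.MM Pool.Agent.H21.MT Pool.Agent.H14.L2
  Pool.Agent.H95.UL

variable {ι : Type} [Fintype ι] [DecidableEq ι] {L : ℕ}

open Classical in
theorem sum_vpU {x a : ℝ} {h : ι → ℕ} {w W b : ℕ} (hok : OkG x a L h w W b) (j0 : ι)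
    (A : ι → Fin L → ℕ) (hA0 : ∀ i, A j0 i = 0) (J : ℕ) (Q : ℝ) (E : ℕ → ℝ)
    (hE0 : ∀ q, 0 ≤ E q)
    (hUP : UP (Tp x (h j0)) (fun N => vp J x (N + h j0)) (h j0) (MM J x) Q E)
    (T0 S0 : ℝ) (hT0 : 0 ≤ T0)
    (htriv : ∀ q : ℕ, 1 ≤ q → (q : ℝ) ≤ Q → E q ≤ T0 / q.totient)
    (hsum : ∑ q ∈ Icc 1 ⌊Q⌋₊, E q ≤ S0) (Y d : ℝ) (hY : 0 ≤ Y) (fl fu : Finset ℕ → ℝ)
    (hs : Sand (Fintype.card ι) (gg (Fintype.card ι - 1)) (PP x a (W)) Y d fl fu)
    (hQ : (W : ℝ) * (x ^ sl a L A * Y) ≤ Q) :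
    |∑ N ∈ (Tp x (h j0)).filter (fun N => Adm x a h (W) b N),
        vp J x (N + h j0) * sm x a L h A N -
      MM J x / (W).totient * vv (gg (Fintype.card ι - 1)) (PP x a (W)) *
        GP (TI x a L) A| ≤
      d * (MM J x / (W).totient *
        vv (gg (Fintype.card ι - 1)) (PP x a (W))) * GP (TI x a L) A +
      2 * (Real.sqrt (T0 * S0) * Real.sqrt (∑ n ∈ SF (x ^ sl a L A * Y),
        (((Fintype.card ι) ^ 2 : ℕ) : ℝ) ^ n.primeFactors.card / n.totient)) := by
  have hx0 : 0 < x := by linarith [hok.x1]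
  have hWpos : 0 < W := hok.W0
  obtain ⟨r, hr1, hr2⟩ := hok.sm_fam A
  set P := PP x a (W) with hP
  have hcard := card_ne j0
  have hs' : Sand (Fintype.card ι) (gg (Fintype.card {j : ι // j ≠ j0})) P Y d fl fu := by
    rw [hcard]
    exact hs
  have hX : 0 ≤ MM J x := Finset.sum_nonneg fun p _ => vp_nonneg J x p
  have hPm : ∀ p ∈ P, p.Prime ∧ (p : ℝ) < x ^ a ∧ w < p ∧ ¬ p ∣ W := fun p hp =>
    hok.mem_P hp
  have hqpos : ∀ k ∈ Fam (TI x a L) A, 0 < qk k := fun k hk =>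
    qk_pos (fun i p hp => (hok.mem_T hp).1) (mem_Fam.1 hk).1
  have hp := poly hUP (fun N _ => vp_nonneg J x _) hX (fun j : {j : ι // j ≠ j0} => h j.1)
    (W) b P hWpos (fun p hp => ⟨(hPm p hp).1, (hPm p hp).2.2.2⟩)
    (fun p hp i j hij => hok.hd p (hPm p hp).1 (hPm p hp).2.2.2 i.1 j.1
      (fun hc => hij (Subtype.ext hc)))
    (fun p hp i => hok.hd p (hPm p hp).1 (hPm p hp).2.2.2 i.1 j0 i.2)
    (hok.hW j0) (Fintype.card ι) Y d fl fu hs' (Fam (TI x a L) A) qk r (fun _ => 1)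
    hqpos
    (fun k hk => by
      rw [Nat.coprime_comm]
      refine Nat.Coprime.symm (Nat.Coprime.symm ?_)
      refine Nat.coprime_of_dvd fun p hpp hpq hpW => ?_
      exact (hok.fam_prime hk hpp hpq).2.1 hpW)
    (fun k hk p hp hpq => by
      have h3 := (hok.fam_prime hk (hPm p hp).1 hpq).1
      linarith [(hPm p hp).2.1])
    (fun k hk => by
      refine Nat.coprime_of_dvd fun p hpp hpr hpq => ?_
      obtain ⟨h3, h4, j, i, hji⟩ := hok.fam_prime hk hpp hpq
      have hDv : Dv h k (r k) := (hr2 k hk (r k)).2 rfl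
      have h5 := hDv j i p hji
      have hj : j ≠ j0 := by
        rintro rfl
        have h6 := ((mem_All.1 (mem_Fam.1 hk).1) j i).2
        rw [hA0 i, Finset.card_eq_zero] at h6
        rw [h6] at hji
        exact absurd hji (Finset.notMem_empty p)
      apply hok.hd p hpp h4 j j0 hj
      have h7 : (p : ℤ) ∣ ((r k + h j : ℕ) : ℤ) - ((r k + h j0 : ℕ) : ℤ) :=
        dvd_sub (Int.natCast_dvd_natCast.2 h5) (Int.natCast_dvd_natCast.2 hpr)
      have h8 : ((r k + h j : ℕ) : ℤ) - ((r k + h j0 : ℕ) : ℤ) = (h j : ℤ) - h j0 := by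
        push_cast
        ring
      rwa [h8] at h7)
    (fun k hk => by
      refine le_trans ?_ hQ
      rw [mul_assoc]
      refine mul_le_mul_of_nonneg_left ?_ (Nat.cast_nonneg _)
      exact mul_le_mul_of_nonneg_right (hok.q_le hk) hY)
  rw [hcard] at hp
  have e1 : ∑ N ∈ (Tp x (h j0)).filter (fun N => Adm x a h (W) b N),
        vp J x (N + h j0) * sm x a L h A N =
      ∑ N ∈ (Tp x (h j0)).filter (fun N => N % W = b % W ∧
        DP (fun j : {j : ι // j ≠ j0} => h j.1) P N = ∅),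
        vp J x (N + h j0) * ∑ k ∈ Fam (TI x a L) A, if N % qk k = r k % qk k then (1 : ℝ) else 0 := by
    refine Finset.sum_congr (Finset.filter_congr fun N hN => hok.adm_prime j0 hN) fun N _ => ?_
    rw [hr1 N]
  have e2 : ∑ k ∈ Fam (TI x a L) A, (1 : ℝ) / (qk k).totient = GP (TI x a L) A := rfl
  have e3 : ∑ k ∈ Fam (TI x a L) A, |(1 : ℝ)| / (qk k).totient = GP (TI x a L) A := by
    simp only [abs_one]
    rfl
  rw [e1]
  rw [e2, e3] at hp
  refine hp.trans (add_le_add le_rfl ?_)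
  -- the error sum
  have g1 := group_sum (W) (Fintype.card ι - 1) (Fintype.card ι) (Fintype.card ι)
    (Nat.sub_le _ _) le_rfl P (fun p hp => (hPm p hp).1) Y (x ^ sl a L A) 2 hY (by norm_num) E hE0
    (Fam (TI x a L) A) qk (fun _ => 1)
    (fun k hk => qk_squarefree (fun i p hp => (hok.mem_T hp).1) hk)
    (fun k hk p hp hpq => by
      have h3 := (hok.fam_prime hk (hPm p hp).1 hpq).1
      linarith [(hPm p hp).2.1])
    (fun k hk => hok.q_le hk)
    (fun n => by
      have h3 := num (TI x a L) A (fun i p hp => (hok.mem_T hp).1)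
        (fun i i' => TI_disj hok.x1.le hok.a0 L i i') n
      simp only [abs_one, Finset.sum_const, nsmul_eq_mul, mul_one]
      have h4 : (((Fam (TI x a L) A).filter (fun k => qk k = n)).card : ℝ) ≤
          ((Fintype.card ι ^ n.primeFactors.card : ℕ) : ℝ) := by
        exact (Nat.cast_le (α := ℝ)).2 h3
      push_cast at h4
      exact h4)
    (fun S => |fl S| + |fu S|)
    (fun S => by
      rw [abs_of_nonneg (by positivity)]
      have h3 := hs.abs_l S
      have h4 := hs.abs_u S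
      linarith)
    (fun S hS => by
      by_cases hf : fl S = 0
      · refine hs.lev_u S fun h4 => hS ?_
        rw [hf, h4]
        simp
      · exact hs.lev_l S hf)
  have g2 := cs_sum (W) hWpos (Fintype.card ι) (x ^ sl a L A * Y) Q T0 S0 E hE0 hT0 hQ
    htriv hsum
  refine le_trans (le_of_eq ?_) (g1.trans (mul_le_mul_of_nonneg_left g2 (by norm_num)))
  refine Finset.sum_congr rfl fun k _ => ?_
  congr 1
  refine Finset.sum_congr rfl fun S _ => ?_
  rw [abs_of_nonneg (by positivity : 0 ≤ |fl S| + |fu S|)]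

/-- the crude bound with the weight `wN` -/
theorem sum_wNU {x a : ℝ} {h : ι → ℕ} {w W b : ℕ} (hok : OkG x a L h w W b) (A : ι → Fin L → ℕ)
    (hap : ∀ q c : ℕ, 0 < q → |∑ N ∈ (Win x).filter (fun N => N % q = c % q), wN x N -
      (∑ N ∈ Win x, wN x N) / q| ≤ 4) (hm : ∑ N ∈ Win x, wN x N ≤ 120 * x)
    (hsl : sl a L A ≤ 1) :
    ∑ N ∈ Win x, wN x N * sm x a L h A N ≤ 124 * x * GA (TI x a L) A := by
  obtain ⟨r, hr1, hr2⟩ := hok.sm_fam A
  have hx0 : 0 < x := by linarith [hok.x1]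
  have e1 : ∑ N ∈ Win x, wN x N * sm x a L h A N =
      ∑ k ∈ Fam (TI x a L) A, ∑ N ∈ (Win x).filter (fun N => N % qk k = r k % qk k), wN x N := by
    simp_rw [hr1, Finset.mul_sum]
    rw [Finset.sum_comm]
    refine Finset.sum_congr rfl fun k _ => ?_
    rw [Finset.sum_filter]
    refine Finset.sum_congr rfl fun N _ => ?_
    split_ifs <;> simp
  rw [e1]
  unfold GA
  rw [Finset.mul_sum]
  refine Finset.sum_le_sum fun k hk => ?_
  have hq : 0 < qk k := qk_pos (fun i p hp => (hok.mem_T hp).1) (mem_Fam.1 hk).1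
  have hq0 : (0 : ℝ) < qk k := by exact_mod_cast hq
  have h1 := (abs_le.1 (hap (qk k) (r k) hq)).2
  have h2 : (qk k : ℝ) ≤ x := by
    refine (hok.q_le hk).trans ?_
    calc x ^ sl a L A ≤ x ^ (1 : ℝ) := Real.rpow_le_rpow_of_exponent_le hok.x1.le hsl
      _ = x := Real.rpow_one x
  have h3 : (∑ N ∈ Win x, wN x N) / (qk k : ℝ) ≤ 120 * x / qk k :=
    div_le_div_of_nonneg_right hm hq0.le
  have h4 : (4 : ℝ) ≤ 4 * x / qk k := by
    rw [le_div_iff₀ hq0]
    linarith
  have h5 : 124 * x * (1 / (qk k : ℝ)) = 120 * x / qk k + 4 * x / qk k := by ring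
  rw [h5]
  linarith

/-- `GP` against `GA` -/
theorem GP_leU {x a : ℝ} {h : ι → ℕ} {w W b : ℕ} (hok : OkG x a L h w W b) (A : ι → Fin L → ℕ)
    (hsl : sl a L A ≤ 1) (e : ℝ) (he0 : 0 < e) (he1 : e ≤ 1)
    (hxe : 2 / a ≤ e * x ^ a) :
    GA (TI x a L) A ≤ GP (TI x a L) A ∧ GP (TI x a L) A ≤ (1 + e) * GA (TI x a L) A := by
  have hx0 : 0 < x := by linarith [hok.x1]
  have ha := hok.a0
  have hy1 : 1 ≤ x ^ a := Real.one_le_rpow hok.x1.le ha.le
  have hy0 : 0 < x ^ a := by linarith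
  have hpt : ∀ k ∈ Fam (TI x a L) A, (0 : ℝ) < (qk k).totient ∧
      ((qk k).totient : ℝ) ≤ qk k ∧ (qk k : ℝ) ≤ (1 + e) * (qk k).totient := by
    intro k hk
    have hq : 0 < qk k := qk_pos (fun i p hp => (hok.mem_T hp).1) (mem_Fam.1 hk).1
    have hsq := qk_squarefree (fun i p hp => (hok.mem_T (i := i) hp).1) hk
    have h1 : (0 : ℝ) < (qk k).totient := by exact_mod_cast Nat.totient_pos.2 hq
    have h2 : ((qk k).totient : ℝ) ≤ qk k := by exact_mod_cast Nat.totient_le _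
    refine ⟨h1, h2, ?_⟩
    have hpp : ∀ p : ℕ, p.Prime → p ∣ qk k → x ^ a ≤ (p : ℝ) := fun p hp hpq =>
      (hok.fam_prime hk hp hpq).1
    have hcard : ((qk k).primeFactors.card : ℝ) ≤ 1 / a := by
      have h3 : (x ^ a) ^ (qk k).primeFactors.card ≤ (qk k : ℝ) := by
        conv_rhs => rw [← Nat.prod_primeFactors_of_squarefree hsq]
        push_cast
        rw [← Finset.prod_const]
        refine Finset.prod_le_prod (fun _ _ => hy0.le) fun p hp => ?_
        exact hpp p (Nat.prime_of_mem_primeFactors hp) (Nat.dvd_of_mem_primeFactors hp)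
      have h4 : (qk k : ℝ) ≤ x ^ (1 : ℝ) := (hok.q_le hk).trans
        (Real.rpow_le_rpow_of_exponent_le hok.x1.le hsl)
      have h5 : x ^ (a * (qk k).primeFactors.card) ≤ x ^ (1 : ℝ) := by
        rw [Real.rpow_mul hx0.le, Real.rpow_natCast]
        exact h3.trans h4
      have h6 := (Real.rpow_le_rpow_left_iff hok.x1).1 h5
      rw [le_div_iff₀ ha]
      linarith
    have h3 := phi_near (qk k) hsq (x ^ a) hy1 (1 / a) hpp hcard
    have h4 : 1 / a / x ^ a ≤ e / 2 := by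
      rw [div_le_iff₀ hy0]
      have h7 : 2 / a = 2 * (1 / a) := by ring
      rw [h7] at hxe
      linarith
    have h5 : (qk k : ℝ) * (1 - e / 2) ≤ (qk k).totient := by
      refine le_trans ?_ h3
      exact mul_le_mul_of_nonneg_left (by linarith) (Nat.cast_nonneg _)
    have h6 : (1 : ℝ) ≤ (1 + e) * (1 - e / 2) := by nlinarith
    have h7 : (0 : ℝ) ≤ qk k := Nat.cast_nonneg _
    calc (qk k : ℝ) = qk k * 1 := (mul_one _).symm
      _ ≤ qk k * ((1 + e) * (1 - e / 2)) := mul_le_mul_of_nonneg_left h6 h7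
      _ = (1 + e) * (qk k * (1 - e / 2)) := by ring
      _ ≤ _ := mul_le_mul_of_nonneg_left h5 (by linarith)
  unfold GA GP
  constructor
  · refine Finset.sum_le_sum fun k hk => ?_
    obtain ⟨h1, h2, h3⟩ := hpt k hk
    exact one_div_le_one_div_of_le h1 h2
  · rw [Finset.mul_sum]
    refine Finset.sum_le_sum fun k hk => ?_
    obtain ⟨h1, h2, h3⟩ := hpt k hk
    have h4 : (0 : ℝ) < qk k := lt_of_lt_of_le h1 h2
    rw [mul_one_div, div_le_div_iff₀ h1 h4]
    linarith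

end Pool.Agent.H72.NL
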