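import Pool.Agent.H14.L2.Vv

/-!
[H72 NL VV]  MP_8923e7_nt, THEOREM G (uniform laws): products over the primes of the presieve for a general squarefree modulus `W < x^a`.
Edited copy of the end of `H14/L2/Vv.lean`.
-/

namespace Pool.Agent.H72.NL

open Finset Filter Pool.Agent.H95.FL Pool.Agent.H95.L1 Pool.Agent.H92.MM Pool.Agent.H14.L2

/-- primes below `x^a`: those dividing `W` and those of the presieve -/
theorem prime_splitU (x a : ℝ) (W : ℕ) (hW0 : 0 < W) (hw : (W : ℝ) < x ^ a) :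
    ∏ p ∈ (range ⌈x ^ a⌉₊).filter Nat.Prime, (1 - 1 / (p : ℝ)) =
      ((W).totient : ℝ) / W * ∏ p ∈ PP x a (W), (1 - 1 / (p : ℝ)) := by
  rw [← Finset.prod_filter_mul_prod_filter_not ((range ⌈x ^ a⌉₊).filter Nat.Prime)
    (fun p => p ∣ W)]
  congr 1
  · have h1 : ((range ⌈x ^ a⌉₊).filter Nat.Prime).filter (fun p => p ∣ W) = W.primeFactors := by
      ext p
      rw [Finset.mem_filter, Finset.mem_filter, Finset.mem_range, Nat.lt_ceil,
        Nat.mem_primeFactors]
      constructor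
      · rintro ⟨⟨h1, h2⟩, h3⟩
        exact ⟨h2, h3, hW0.ne'⟩
      · rintro ⟨h2, h3, -⟩
        refine ⟨⟨lt_of_le_of_lt ?_ hw, h2⟩, h3⟩
        exact_mod_cast Nat.le_of_dvd hW0 h3
    rw [h1]
    have h2 := Nat.totient_eq_mul_prod_factors W
    have h3 : ((W).totient : ℝ) = W * ∏ p ∈ W.primeFactors, (1 - (p : ℝ)⁻¹) := by
      have h4 := congrArg (fun q : ℚ => (q : ℝ)) h2
      push_cast at h4
      exact h4
    rw [h3]
    have hW : (W : ℝ) ≠ 0 := by exact_mod_cast hW0.ne'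
    rw [mul_div_assoc, mul_comm (W : ℝ), div_mul_cancel₀ _ hW]
    refine Finset.prod_congr rfl fun p hp => ?_
    rw [one_div]
  · unfold PP
    rw [Finset.filter_filter]

theorem pr_eqU (x a : ℝ) (W K : ℕ) (hW0 : 0 < W) (hw : (W : ℝ) < x ^ a)
    (hK : 1 ≤ K) (hx : 1 < x) :
    1 / (Real.log x * (W).totient) * vv (gg (K - 1)) (PP x a (W)) =
      pr x a * (1 / W * vv (fun p => (K : ℝ) / p) (PP x a (W))) := by
  have hW : (0 : ℝ) < W := by exact_mod_cast hW0
  have hphi : (0 : ℝ) < (W).totient := by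
    exact_mod_cast Nat.totient_pos.2 hW0
  have hL : 0 < Real.log x := Real.log_pos hx
  have hmem : ∀ p ∈ PP x a (W), p.Prime ∧ p.Prime := by
    intro p hp
    exact ⟨(mem_PP.1 hp).1, (mem_PP.1 hp).1⟩
  have hP1 : 0 < ∏ p ∈ PP x a (W), (1 - 1 / (p : ℝ)) := by
    refine Finset.prod_pos fun p hp => ?_
    have h2 : (2 : ℝ) ≤ p := by exact_mod_cast (hmem p hp).1.two_le
    have h3 : 1 / (p : ℝ) ≤ 1 / 2 := one_div_le_one_div_of_le (by norm_num) h2
    linarith
  have hvv : vv (fun p => (K : ℝ) / p) (PP x a (W)) =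
      vv (gg (K - 1)) (PP x a (W)) * ∏ p ∈ PP x a (W), (1 - 1 / (p : ℝ)) := by
    unfold vv
    rw [← Finset.prod_mul_distrib]
    refine Finset.prod_congr rfl fun p hp => ?_
    have h2 : (2 : ℝ) ≤ p := by exact_mod_cast (hmem p hp).1.two_le
    have h3 : (p : ℝ) - 1 ≠ 0 := by linarith
    have h4 : (p : ℝ) ≠ 0 := by linarith
    unfold gg
    rw [Nat.cast_sub hK]
    push_cast
    field_simp
    ring
  unfold pr
  rw [prime_splitU x a W hW0 hw, hvv]
  field_simp

end Pool.Agent.H72.NL
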